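import Mathlib

/-!
# Planar case of MP_85210c_gt: statements of all tasks

Theorem: `P(B_X) ≥ P(B_p^2)` for every two-dimensional subspace `X` of `L_p`, `1 < p < 2`.
Task `X` proves `theorem X : S_X` (or `theorem X (h : S_Y) ... : S_X`) in
`Pool/Agent/H590/PL/X.lean`, importing only this file (and Mathlib).

Idea: `F(p,v) = ∫ exp(-Σ|v_k·x|^p)` and `A(p,v)` (the integral of `exp(-Φ) det ∇²Φ`, up to a
constant the area of the polar) ; `F A ≥ F_e A_e` is proved by a minimum principle in `p`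
(equality at `p = 2`; at a minimiser `v` the `p`-derivative of `log (F A / (F_e A_e))` is `≤ 0`).
-/

set_option autoImplicit false

noncomputable section

open MeasureTheory Filter Topology Set
open scoped BigOperators ENNReal

namespace H590PL

abbrev P2 := ℝ × ℝ

/-- scalar product on the plane -/
def ip (v x : P2) : ℝ := v.1 * x.1 + v.2 * x.2

/-- determinant -/
def dt (v w : P2) : ℝ := v.1 * w.2 - v.2 * w.1

section
variable {κ : Type} [Fintype κ]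

/-- `Φ(x) = Σ_k b_k |v_k·x|^p` -/
def Ph (p : ℝ) (v : κ → P2) (b : κ → ℝ) (x : P2) : ℝ := ∑ k, b k * |ip (v k) x| ^ p

/-- `F = ∫ exp (-Φ)` -/
def FF (p : ℝ) (v : κ → P2) (b : κ → ℝ) : ℝ := ∫ x : P2, Real.exp (-(Ph p v b x))

/-- `D = ½ Σ_{i,j} det(v_i,v_j)² (p b_i |v_i·x|^(p-2)) (p b_j |v_j·x|^(p-2))` -/
def DD (p : ℝ) (v : κ → P2) (b : κ → ℝ) (x : P2) : ℝ :=
  (1 / 2) * ∑ i, ∑ j, dt (v i) (v j) ^ 2 * (p * b i * |ip (v i) x| ^ (p - 2)) *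
    (p * b j * |ip (v j) x| ^ (p - 2))

/-- `A = ∫ exp (-Φ) D` -/
def AA (p : ℝ) (v : κ → P2) (b : κ → ℝ) : ℝ :=
  ∫ x : P2, Real.exp (-(Ph p v b x)) * DD p v b x

/-- the vectors span the plane -/
def Spans (v : κ → P2) : Prop := ∃ i j, dt (v i) (v j) ≠ 0

/-- normalised: `Σ v_k v_kᵀ = I` -/
def Nrm (v : κ → P2) : Prop :=
  (∑ k, (v k).1 ^ 2 = 1) ∧ (∑ k, (v k).2 ^ 2 = 1) ∧ ∑ k, (v k).1 * (v k).2 = 0

/-- all weights one -/
def one : κ → ℝ := fun _ => 1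

open Classical in
/-- all weights one except the weight `1 + y` of generator `k` -/
def bu (k : κ) (y : ℝ) : κ → ℝ := Function.update (fun _ => 1) k (1 + y)

/-- `τ_k = |v_k·x|^p` -/
def tau (p : ℝ) (v : κ → P2) (k : κ) (x : P2) : ℝ := |ip (v k) x| ^ p

/-- `T_k = ∫ exp(-Φ) τ_k = - ∂F/∂b_k` -/
def TT (p : ℝ) (v : κ → P2) (k : κ) : ℝ :=
  ∫ x : P2, Real.exp (-(Ph p v one x)) * tau p v k x

/-- part of `exp(-Φ) D` containing generator `k` -/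
def G1 (p : ℝ) (v : κ → P2) (k : κ) (x : P2) : ℝ :=
  Real.exp (-(Ph p v one x)) * ∑ j, dt (v k) (v j) ^ 2 * (p * |ip (v k) x| ^ (p - 2)) *
    (p * |ip (v j) x| ^ (p - 2))

/-- `R_k = ∂A/∂b_k` at `b = 1` -/
def RR (p : ℝ) (v : κ → P2) (k : κ) : ℝ :=
  ∫ x : P2, (G1 p v k x - tau p v k x * (Real.exp (-(Ph p v one x)) * DD p v one x))

/-- `∫ exp(-Φ) τ_k log τ_k` -/
def DFk (p : ℝ) (v : κ → P2) (k : κ) : ℝ :=
  ∫ x : P2, Real.exp (-(Ph p v one x)) * (tau p v k x * Real.log (tau p v k x))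

/-- the `k`-th part of `-p ∂A/∂p` -/
def DAk (p : ℝ) (v : κ → P2) (k : κ) : ℝ :=
  ∫ x : P2, (Real.exp (-(Ph p v one x)) * DD p v one x * (tau p v k x * Real.log (tau p v k x))
    - G1 p v k x * Real.log (tau p v k x) - G1 p v k x)

end

/-- standard basis -/
def ee : Fin 2 → P2 := ![(1, 0), (0, 1)]

/-- `Ξ_p(l) = ∫_0^∞ ((1+l y)^(1/p) + (1+l y)^(-1/p) - 2) / y² dy` -/
def Xi (p l : ℝ) : ℝ :=
  ∫ y in Ioi (0 : ℝ), ((1 + l * y) ^ (1 / p) + (1 + l * y) ^ (-(1 / p)) - 2) / y ^ 2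

/-! ### General analysis -/

/-- FR: Frullani type integrals, with absolute bounds -/
def S_FR : Prop :=
  (∀ t : ℝ, 0 ≤ t →
    IntegrableOn (fun y : ℝ => (Real.exp (-(y * t)) - 1 + y * Real.exp (-y) * t) / y ^ 2) (Ioi 0) ∧
    ∫ y in Ioi (0 : ℝ), (Real.exp (-(y * t)) - 1 + y * Real.exp (-y) * t) / y ^ 2 =
      t * Real.log t - t) ∧
  (∀ t : ℝ, 0 < t →
    IntegrableOn (fun y : ℝ => (Real.exp (-(y * t)) - Real.exp (-y)) / y) (Ioi 0) ∧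
    ∫ y in Ioi (0 : ℝ), (Real.exp (-(y * t)) - Real.exp (-y)) / y = - Real.log t) ∧
  ∃ C : ℝ, 0 < C ∧
    (∀ t : ℝ, 0 ≤ t →
      ∫ y in Ioi (0 : ℝ), |(Real.exp (-(y * t)) - 1 + y * Real.exp (-y) * t) / y ^ 2| ≤
        C * (1 + t + t * |Real.log t|)) ∧
    (∀ t : ℝ, 0 < t →
      ∫ y in Ioi (0 : ℝ), |(Real.exp (-(y * t)) - Real.exp (-y)) / y| ≤ |Real.log t|)

/-- GEN: the general identity, from FR by Fubini. `H(y) = ∫ e^(-yτ) (g0 + (1+y) g1)` -/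
def S_GEN : Prop :=
  ∀ (τ g0 g1 : P2 → ℝ), Measurable τ → Measurable g0 → Measurable g1 →
    (∀ x, 0 ≤ τ x) → (∀ x, 0 ≤ g0 x) → (∀ x, 0 ≤ g1 x) → (∀ x, τ x = 0 → g1 x = 0) →
    Integrable g0 → Integrable g1 → Integrable (fun x => g0 x * τ x) →
    Integrable (fun x => g1 x * τ x) →
    Integrable (fun x => (g0 x + g1 x) * (τ x * Real.log (τ x))) →
    Integrable (fun x => g1 x * Real.log (τ x)) →
    IntegrableOn (fun y : ℝ =>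
      ((∫ x, Real.exp (-(y * τ x)) * (g0 x + (1 + y) * g1 x)) - (∫ x, (g0 x + g1 x))
        - y * Real.exp (-y) * ∫ x, (g1 x - τ x * (g0 x + g1 x))) / y ^ 2) (Ioi 0) ∧
    ∫ y in Ioi (0 : ℝ),
      ((∫ x, Real.exp (-(y * τ x)) * (g0 x + (1 + y) * g1 x)) - (∫ x, (g0 x + g1 x))
        - y * Real.exp (-y) * ∫ x, (g1 x - τ x * (g0 x + g1 x))) / y ^ 2 =
      ∫ x, ((g0 x + g1 x) * (τ x * Real.log (τ x) - τ x) - g1 x * Real.log (τ x))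

/-- DINI: minimum principle -/
def S_DINI : Prop :=
  ∀ (X : Type) [TopologicalSpace X] (K : Set X) (p0 p1 : ℝ) (J : ℝ → X → ℝ), IsCompact K →
    p0 < p1 → ContinuousOn (fun q : ℝ × X => J q.1 q.2) (Icc p0 p1 ×ˢ K) →
    (∀ p ∈ Ico p0 p1, ∀ v ∈ K, (∀ w ∈ K, J p v ≤ J p w) →
      ∃ D : ℝ, D ≤ 0 ∧ HasDerivWithinAt (fun q => J q v) D (Ici p) p) →
    ∀ c : ℝ, (∀ w ∈ K, c ≤ J p1 w) → ∀ w ∈ K, c ≤ J p0 w

/-- XI: the function `Ξ` -/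
def S_XI : Prop :=
  ∀ p : ℝ, 1 < p → p < 2 →
    (∀ l : ℝ, 0 ≤ l → IntegrableOn
      (fun y : ℝ => ((1 + l * y) ^ (1 / p) + (1 + l * y) ^ (-(1 / p)) - 2) / y ^ 2) (Ioi 0)) ∧
    ∀ l : ℝ, 0 ≤ l → Xi p l = l * Xi p 1

/-! ### The functions F and A -/

/-- IF: integrability for F -/
def S_IF : Prop :=
  ∀ (κ : Type) [Fintype κ] (p : ℝ), 1 < p → p ≤ 2 → ∀ v : κ → P2, Spans v →
    Integrable (fun x => Real.exp (-(Ph p v one x))) ∧ 0 < FF p v one ∧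
    ∀ k, Integrable (fun x => Real.exp (-(Ph p v one x)) * tau p v k x) ∧
      Integrable (fun x => Real.exp (-(Ph p v one x)) * (tau p v k x * Real.log (tau p v k x)))

/-- IA: integrability for A -/
def S_IA : Prop :=
  ∀ (κ : Type) [Fintype κ] (p : ℝ), 1 < p → p ≤ 2 → ∀ v : κ → P2, Spans v →
    Integrable (fun x => Real.exp (-(Ph p v one x)) * DD p v one x) ∧ 0 < AA p v one ∧
    ∀ k, Integrable (fun x => Real.exp (-(Ph p v one x)) * DD p v one x * tau p v k x) ∧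
      Integrable (fun x => Real.exp (-(Ph p v one x)) * DD p v one x *
        (tau p v k x * Real.log (tau p v k x))) ∧
      Integrable (G1 p v k) ∧ Integrable (fun x => G1 p v k x * tau p v k x) ∧
      Integrable (fun x => G1 p v k x * Real.log (tau p v k x))

/-- DPF: derivative of F in p -/
def S_DPF : Prop :=
  ∀ (κ : Type) [Fintype κ] (p : ℝ), 1 < p → p < 2 → ∀ v : κ → P2, Spans v →
    HasDerivAt (fun q => FF q v one) (-(1 / p) * ∑ k, DFk p v k) p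

/-- DPA: derivative of A in p -/
def S_DPA : Prop :=
  ∀ (κ : Type) [Fintype κ] (p : ℝ), 1 < p → p < 2 → ∀ v : κ → P2, Spans v →
    HasDerivAt (fun q => AA q v one) (-(1 / p) * ∑ k, DAk p v k) p

/-- DBF: derivative of F in a weight -/
def S_DBF : Prop :=
  ∀ (κ : Type) [Fintype κ] (p : ℝ), 1 < p → p < 2 → ∀ v : κ → P2, Spans v → ∀ k,
    HasDerivAt (fun y => FF p v (bu k y)) (-(TT p v k)) 0

/-- DBA: derivative of A in a weight -/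
def S_DBA : Prop :=
  ∀ (κ : Type) [Fintype κ] (p : ℝ), 1 < p → p < 2 → ∀ v : κ → P2, Spans v → ∀ k,
    HasDerivAt (fun y => AA p v (bu k y)) (RR p v k) 0

/-- GF: the general identity for F -/
def S_GF : Prop :=
  ∀ (κ : Type) [Fintype κ] (p : ℝ), 1 < p → p < 2 → ∀ v : κ → P2, Spans v → ∀ k,
    IntegrableOn (fun y : ℝ =>
      (FF p v (bu k y) - FF p v one + y * Real.exp (-y) * TT p v k) / y ^ 2) (Ioi 0) ∧
    ∫ y in Ioi (0 : ℝ),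
      (FF p v (bu k y) - FF p v one + y * Real.exp (-y) * TT p v k) / y ^ 2 =
        DFk p v k - TT p v k

/-- GA: the general identity for A -/
def S_GA : Prop :=
  ∀ (κ : Type) [Fintype κ] (p : ℝ), 1 < p → p < 2 → ∀ v : κ → P2, Spans v → ∀ k,
    IntegrableOn (fun y : ℝ =>
      (AA p v (bu k y) - AA p v one - y * Real.exp (-y) * RR p v k) / y ^ 2) (Ioi 0) ∧
    ∫ y in Ioi (0 : ℝ),
      (AA p v (bu k y) - AA p v one - y * Real.exp (-y) * RR p v k) / y ^ 2 =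
        DAk p v k + RR p v k

/-- EUL: Euler identity -/
def S_EUL : Prop :=
  ∀ (κ : Type) [Fintype κ] (p : ℝ), 1 < p → p ≤ 2 → ∀ v : κ → P2, Spans v →
    ∑ k, TT p v k = 2 / p * FF p v one

/-- GL: linear invariance -/
def S_GL : Prop :=
  ∀ (κ : Type) [Fintype κ] (p : ℝ), 1 < p → p ≤ 2 → ∀ (v : κ → P2) (b : κ → ℝ) (a₁ a₂ a₃ a₄ : ℝ),
    a₁ * a₄ - a₂ * a₃ ≠ 0 →
    FF p (fun k => (a₁ * (v k).1 + a₂ * (v k).2, a₃ * (v k).1 + a₄ * (v k).2)) b =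
      |a₁ * a₄ - a₂ * a₃|⁻¹ * FF p v b ∧
    AA p (fun k => (a₁ * (v k).1 + a₂ * (v k).2, a₃ * (v k).1 + a₄ * (v k).2)) b =
      |a₁ * a₄ - a₂ * a₃| * AA p v b

/-- SC: weights are scalings -/
def S_SC : Prop :=
  ∀ (κ : Type) [Fintype κ] (p : ℝ), 1 < p → p ≤ 2 → ∀ (v : κ → P2) (b : κ → ℝ), (∀ k, 0 < b k) →
    FF p v b = FF p (fun k => b k ^ (1 / p) • v k) one ∧
    AA p v b = AA p (fun k => b k ^ (1 / p) • v k) one

/-- NO: normalisation, compactness -/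
def S_NO : Prop :=
  ∀ (κ : Type) [Fintype κ],
    (∀ v : κ → P2, Spans v → ∃ a₁ a₂ a₃ a₄ : ℝ, a₁ * a₄ - a₂ * a₃ ≠ 0 ∧
      Nrm (fun k => (a₁ * (v k).1 + a₂ * (v k).2, a₃ * (v k).1 + a₄ * (v k).2))) ∧
    IsCompact {v : κ → P2 | Nrm v} ∧ (∀ v : κ → P2, Nrm v → Spans v) ∧
    ∀ v : κ → P2, Nrm v → ∑ i, ∑ j, dt (v i) (v j) ^ 2 = 2

/-- P2V: value at p = 2 -/
def S_P2V : Prop :=
  ∀ (κ : Type) [Fintype κ] (v : κ → P2), Nrm v →
    FF 2 v one = Real.pi ∧ AA 2 v one = 4 * Real.pi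

/-- CF: joint continuity of F -/
def S_CF : Prop :=
  ∀ (κ : Type) [Fintype κ] (p0 : ℝ), 1 < p0 → p0 < 2 →
    ContinuousOn (fun q : ℝ × (κ → P2) => FF q.1 q.2 one) (Icc p0 2 ×ˢ {v : κ → P2 | Nrm v})

/-- CA: joint continuity of A -/
def S_CA : Prop :=
  ∀ (κ : Type) [Fintype κ] (p0 : ℝ), 1 < p0 → p0 < 2 →
    ContinuousOn (fun q : ℝ × (κ → P2) => AA q.1 q.2 one) (Icc p0 2 ×ˢ {v : κ → P2 | Nrm v})

/-- OR: the standard basis -/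
def S_OR : Prop :=
  ∀ p : ℝ, 1 < p → p ≤ 2 →
    FF p ee one = (2 * Real.Gamma (1 + 1 / p)) ^ 2 ∧
    AA p ee one = (2 * Real.Gamma (1 - 1 / p)) ^ 2 ∧
    ∀ (k : Fin 2) (y : ℝ), -1 < y →
      FF p ee (bu k y) = (1 + y) ^ (-(1 / p)) * FF p ee one ∧
      AA p ee (bu k y) = (1 + y) ^ (1 / p) * AA p ee one

/-! ### The key inequality -/

/-- K1: kernel inequality -/
def S_K1 : Prop :=
  ∀ p ρ a b : ℝ, 1 < p → p < 2 → 0 < ρ → ρ < 1 → a < b → a ≠ 0 → b ≠ 0 →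
    ρ * (1 - ρ) * (b * |b| ^ (p - 2) - a * |a| ^ (p - 2)) ≤
      (b - a) * (ρ ^ 3 * |b| ^ (p - 2) + (1 - ρ) ^ 3 * |a| ^ (p - 2))

/-- `φ(s) = Σ |A_i s + B_i|^p` -/
def ph {κ : Type} [Fintype κ] (p : ℝ) (A B : κ → ℝ) (s : ℝ) : ℝ := ∑ i, |A i * s + B i| ^ p

/-- length of the sublevel set -/
def Wl {κ : Type} [Fintype κ] (p : ℝ) (A B : κ → ℝ) (l : ℝ) : ℝ :=
  (volume {s : ℝ | ph p A B s ≤ l}).toReal

/-- minimum of `φ` -/
def lmin {κ : Type} [Fintype κ] (p : ℝ) (A B : κ → ℝ) : ℝ := sInf (range (ph p A B))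

/-- K2: the `p`-th power of the length of the sublevel set is concave -/
def S_K2 : Prop :=
  ∀ (κ : Type) [Fintype κ] (p : ℝ), 1 < p → p < 2 → ∀ A B : κ → ℝ, (∃ i, A i ≠ 0) →
    0 ≤ lmin p A B ∧
    ConcaveOn ℝ (Ici (lmin p A B)) (fun l => Wl p A B l ^ p) ∧
    (∀ l, l < lmin p A B → Wl p A B l = 0) ∧
    (∀ l, volume {s : ℝ | ph p A B s ≤ l} ≠ ⊤) ∧
    (∃ C : ℝ, ∀ l, 0 ≤ l → Wl p A B l ≤ C * l ^ (1 / p)) ∧
    (∀ l, lmin p A B < l → 0 < Wl p A B l)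

/-- K3: integrals in the chart `x = (t σ, t)` -/
def S_K3 : Prop :=
  ∀ (κ : Type) [Fintype κ] (p : ℝ), 1 < p → p < 2 → ∀ (A B : κ → ℝ) (b : ℝ), (∃ i, A i ≠ 0) →
    0 < b →
    ∫ x : P2, Real.exp (-((∑ i, |A i * x.1 + B i * x.2| ^ p) + b * |x.2| ^ p)) =
      2 / p * Real.Gamma (2 / p) * ∫ s : ℝ, (ph p A B s + b) ^ (-(2 / p)) ∧
    ∫ x : P2, Real.exp (-((∑ i, |A i * x.1 + B i * x.2| ^ p) + b * |x.2| ^ p)) * |x.2| ^ p =
      2 / p * (2 / p) * Real.Gamma (2 / p) * ∫ s : ℝ, (ph p A B s + b) ^ (-(2 / p + 1))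

/-- K4: layer cake -/
def S_K4 : Prop :=
  ∀ (κ : Type) [Fintype κ] (p : ℝ), 1 < p → p < 2 → ∀ (A B : κ → ℝ) (b r : ℝ), (∃ i, A i ≠ 0) →
    0 < b → 1 / p < r →
    IntegrableOn (fun l => (l + b) ^ (-(r + 1)) * Wl p A B l) (Ioi (lmin p A B)) ∧
    ∫ s : ℝ, (ph p A B s + b) ^ (-r) =
      r * ∫ l in Ioi (lmin p A B), (l + b) ^ (-(r + 1)) * Wl p A B l

/-- K5: comparison with `(μ - μ₀)_+`: the function `I^(-p)` lies above its tangents -/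
def S_K5 : Prop :=
  ∀ (p l0 b b' : ℝ) (om : ℝ → ℝ), 1 < p → p < 2 → 0 ≤ l0 → 0 < b → b ≤ b' →
    ConcaveOn ℝ (Ici l0) om → (∀ l ∈ Ici l0, 0 ≤ om l) → ContinuousOn om (Ioi l0) →
    IntegrableOn (fun l => (l + b) ^ (-(2 / p + 1)) * om l ^ (1 / p)) (Ioi l0) →
    0 < ∫ l in Ioi l0, (l + b) ^ (-(2 / p + 1)) * om l ^ (1 / p) →
    ∫ l in Ioi l0, (l + b') ^ (-(2 / p + 1)) * om l ^ (1 / p) ≤
      (∫ l in Ioi l0, (l + b) ^ (-(2 / p + 1)) * om l ^ (1 / p)) *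
        (1 + p * (2 / p + 1) * (b' - b) *
          (∫ l in Ioi l0, (l + b) ^ (-(2 / p + 2)) * om l ^ (1 / p)) /
          (∫ l in Ioi l0, (l + b) ^ (-(2 / p + 1)) * om l ^ (1 / p))) ^ (-(1 / p))

/-- KEY: `F^(-p)` lies above its tangent in every weight -/
def S_KEY : Prop :=
  ∀ (κ : Type) [Fintype κ] (p : ℝ), 1 < p → p < 2 → ∀ v : κ → P2, Spans v → ∀ (k : κ) (y : ℝ),
    0 ≤ y → FF p v (bu k y) ≤
      FF p v one * (1 + p * TT p v k / FF p v one * y) ^ (-(1 / p))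

/-! ### Assembly of the analytic part -/

/-- MI: at a minimiser the derivative in `p` is at most that of the standard basis -/
def S_MI : Prop :=
  ∀ (κ : Type) [Fintype κ] (p : ℝ), 1 < p → p < 2 → ∀ v : κ → P2, Nrm v →
    (∀ w : κ → P2, Nrm w → FF p v one * AA p v one ≤ FF p w one * AA p w one) →
    (∑ k, DFk p ee k) / FF p ee one + (∑ k, DAk p ee k) / AA p ee one ≤
      (∑ k, DFk p v k) / FF p v one + (∑ k, DAk p v k) / AA p v one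

/-- CORE: the analytic inequality -/
def S_CORE : Prop :=
  ∀ (κ : Type) [Fintype κ] (p : ℝ), 1 < p → p < 2 → ∀ v : κ → P2, Spans v →
    FF p ee one * AA p ee one ≤ FF p v one * AA p v one

/-! ### Geometry -/

/-- VK: area of the ball -/
def S_VK : Prop :=
  ∀ (κ : Type) [Fintype κ] (p : ℝ), 1 < p → p < 2 → ∀ v : κ → P2, Spans v →
    volume {x : P2 | ∑ k, |ip (v k) x| ^ p ≤ 1} =
      ENNReal.ofReal (FF p v one / Real.Gamma (2 / p + 1))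

/-- VP: lower bound of the area of the polar, by the map `∇Φ` -/
def S_VP : Prop :=
  ∀ (κ : Type) [Fintype κ] (p q : ℝ), 1 < p → p < 2 → q = p / (p - 1) → ∀ v : κ → P2, Spans v →
    ENNReal.ofReal (AA p v one / (q ^ 2 * Real.Gamma (2 / q + 1))) ≤
      volume {y : P2 | ∀ x : P2, ∑ k, |ip (v k) x| ^ p ≤ 1 → ip x y ≤ 1}

/-- BP: the volume product of `B_p^2` -/
def S_BP : Prop :=
  ∀ (p q : ℝ), 1 < p → p < 2 → q = p / (p - 1) →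
    volume {x : Fin 2 → ℝ | ∑ i, |x i| ^ p ≤ 1} *
      volume {y : Fin 2 → ℝ | ∀ x : Fin 2 → ℝ, ∑ i, |x i| ^ p ≤ 1 → ∑ i, x i * y i ≤ 1} ≤
    ENNReal.ofReal ((2 * Real.Gamma (1 + 1 / p)) ^ 2 * (2 * Real.Gamma (1 - 1 / p)) ^ 2 /
      (q ^ 2 * Real.Gamma (2 / p + 1) * Real.Gamma (2 / q + 1)))

/-- FIN: the theorem for subspaces of `l_p^N` -/
def S_FIN : Prop :=
  ∀ (κ : Type) [Fintype κ] (p : ℝ), 1 < p → p < 2 → ∀ v : κ → P2, Spans v →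
    volume {x : Fin 2 → ℝ | ∑ i, |x i| ^ p ≤ 1} *
      volume {y : Fin 2 → ℝ | ∀ x : Fin 2 → ℝ, ∑ i, |x i| ^ p ≤ 1 → ∑ i, x i * y i ≤ 1} ≤
    volume {x : P2 | ∑ k, |ip (v k) x| ^ p ≤ 1} *
      volume {y : P2 | ∀ x : P2, ∑ k, |ip (v k) x| ^ p ≤ 1 → ip x y ≤ 1}

/-- LP: passage to `L_p` -/
def S_LP : Prop :=
  ∀ (p : ℝ), 1 < p → p < 2 →
  ∀ f : Fin 2 → MeasureTheory.Lp ℝ (ENNReal.ofReal p)
      ((MeasureTheory.volume : MeasureTheory.Measure ℝ).restrict (Set.Icc (0:ℝ) 1)),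
  LinearIndependent ℝ f →
  MeasureTheory.volume {x : Fin 2 → ℝ | ∑ i, |x i| ^ p ≤ 1} *
    MeasureTheory.volume {y : Fin 2 → ℝ | ∀ x : Fin 2 → ℝ,
      ∑ i, |x i| ^ p ≤ 1 → ∑ i, x i * y i ≤ 1}
  ≤ MeasureTheory.volume {x : Fin 2 → ℝ | ‖∑ i, x i • f i‖ ≤ 1} *
    MeasureTheory.volume {y : Fin 2 → ℝ | ∀ x : Fin 2 → ℝ,
      ‖∑ i, x i • f i‖ ≤ 1 → ∑ i, x i * y i ≤ 1}

end H590PL
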