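import Mathlib
import Pool.Agent.H590.PL.Stm
import Pool.Agent.H120.PL.FR
import Pool.Agent.H86.PL.GEN
import Pool.Agent.H264.PL.Dini
import Pool.Agent.H176.PL.XI
import Pool.Agent.H276.PL.IF
import Pool.Agent.H788.PL.IA
import Pool.Agent.H409.PL.DPF
import Pool.Agent.H553.PL.DPA
import Pool.Agent.H163.PL.DBF
import Pool.Agent.H294.PL.DBA
import Pool.Agent.H734.PL.GF
import Pool.Agent.H448.PL.GA
import Pool.Agent.H224.PL.EUL
import Pool.Agent.H261.PL.GL
import Pool.Agent.H695.PL.SC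
import Pool.Agent.H84.PL.NO
import Pool.Agent.H94.PL.P2V
import Pool.Agent.H457.PL.CF
import Pool.Agent.H921.PL.CA
import Pool.Agent.H661.PL.OR
import Pool.Agent.H52.PL.K1
import Pool.Agent.H335.PL.K2
import Pool.Agent.H736.PL.K3
import Pool.Agent.H505.PL.K4
import Pool.Agent.H801.PL.K5
import Pool.Agent.H686.PL.KEY
import Pool.Agent.H767.PL.MI
import Pool.Agent.H763.PL.Core
import Pool.Agent.H331.PL.VK
import Pool.Agent.H876.PL.VP
import Pool.Agent.H299.PL.BP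
import Pool.Agent.H922.PL.FIN
import Pool.Agent.H190.PL.LP

/-!
# MP_85210c_gt: the planar case

For `1 < p < 2` every two-dimensional subspace `X` of `L_p[0,1]` has volume product
`P(B_X) ≥ P(B_p^2)`. Proof by a minimum principle in `p` starting from the equality at `p = 2`;
see `Pool/Agent/H590/PL/Stm.lean` for the plan.
-/

set_option autoImplicit false

namespace H590PL.PlanarSubspaces

open H590PL

theorem result (p : ℝ) (hp1 : 1 < p) (hp2 : p < 2)
    (f : Fin 2 → MeasureTheory.Lp ℝ (ENNReal.ofReal p)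
      ((MeasureTheory.volume : MeasureTheory.Measure ℝ).restrict (Set.Icc (0:ℝ) 1)))
    (hf : LinearIndependent ℝ f) :
    MeasureTheory.volume {x : Fin 2 → ℝ | ∑ i, |x i| ^ p ≤ 1} *
      MeasureTheory.volume {y : Fin 2 → ℝ | ∀ x : Fin 2 → ℝ,
        ∑ i, |x i| ^ p ≤ 1 → ∑ i, x i * y i ≤ 1}
    ≤ MeasureTheory.volume {x : Fin 2 → ℝ | ‖∑ i, x i • f i‖ ≤ 1} *
      MeasureTheory.volume {y : Fin 2 → ℝ | ∀ x : Fin 2 → ℝ,
        ‖∑ i, x i • f i‖ ≤ 1 → ∑ i, x i * y i ≤ 1} := by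
  have hFR := Pool.Agent.H120.PLFR.FR
  have hGEN := Pool.Agent.H86.PL.GEN hFR
  have hIF := Pool.Agent.H276.PLIF.IF
  have hIA := H788PLIA.IA
  have hGF := H734PL.GF hGEN hIF
  have hGA := H448PL.GA hGEN hIA
  have hDBF := H163PLD.DBF hIF
  have hDBA := Pool.Agent.H294.PL.DBA hIA
  have hDPF := Pool.Agent.H409.PL.DPF hIF
  have hDPA := Pool.Agent.H553.PL.DPA.DPA hIA
  have hEUL := H224PL.EUL hIF
  have hGL := Pool.Agent.H261.PL.gl
  have hSC := Pool.Agent.H695.PL.SC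
  have hNO := Pool.Agent.H84.PL.NO
  have hOR := Pool.Agent.H661.PL.OR
  have hXI := Pool.Agent.H176.PL.XI
  have hK2 := Pool.Agent.H335.PLK2.K2 Pool.Agent.H52.PL590.K1
  have hKEY := H686PL.KEY hK2 H736PL.K3 (Pool.Agent.H505.PL.K4 hK2) H801PL.K5 hGL
  have hMI := H767PL.MI hGF hGA hDBF hDBA hEUL hGL hSC hNO hKEY hOR hXI hIF hIA
  have hCORE := Pool.Agent.H763.PL.CORE hMI H264PL.DINI H457PL.CF Pool.Agent.H921.PL.CA hDPF hDPA
    Pool.Agent.H94.PL.P2V hOR hNO hGL hIF hIA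
  have hFIN := Pool.Agent.H922.PL.FIN hCORE (Pool.Agent.H331.PL.VK hIF) (H876PLVP.VP hIA)
    H299PL.BP hOR hIF hIA
  exact Pool.Agent.H190.PL.LP hFIN p hp1 hp2 f hf

end H590PL.PlanarSubspaces
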